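import Pool.Agent.Lib_helper4.LDK.Defs

/-!
# LDK, block JAC: Jacobi factorisation

`det (1 + x R) · l₊(x) · l₋(x)` is a positive constant times a product of factors `1 + ρ x`,
`ρ ≥ 0`: the eigenvalues `ρ` are those of the compression of `R` to the complement of `span(v,w)`.
-/

set_option autoImplicit false

open scoped BigOperators ComplexOrder Kronecker MatrixOrder Topology
open MeasureTheory Set Matrix Filter

namespace Pool.Agent.LDK

open Pool.Agent.RC

variable {ι κ : Type} [Fintype ι] [DecidableEq ι] [Fintype κ] [DecidableEq κ]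

/-- the `κ × 2` matrix with columns `v`, `w` -/
noncomputable def jacV (v w : κ → ℂ) : Matrix κ (Fin 2) ℂ := Matrix.of fun i j => ![v, w] j i

omit [Fintype κ] [DecidableEq κ] in
theorem jac_col0 (v w : κ → ℂ) : (fun i => jacV v w i 0) = v := by
  ext i; simp [jacV]

omit [Fintype κ] [DecidableEq κ] in
theorem jac_col1 (v w : κ → ℂ) : (fun i => jacV v w i 1) = w := by
  ext i; simp [jacV]

omit [DecidableEq κ] in
theorem jac_entry (X : Matrix κ κ ℂ) (v w : κ → ℂ) (i j : Fin 2) :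
    ((jacV v w)ᴴ * X * jacV v w) i j =
      star (fun k => jacV v w k i) ⬝ᵥ (X *ᵥ (fun k => jacV v w k j)) := by
  rw [Matrix.mul_assoc, Matrix.mul_apply]
  rfl

omit [Fintype κ] [DecidableEq κ] in
theorem jac_inj (v w : κ → ℂ) (h : LinearIndependent ℂ ![v, w]) :
    Function.Injective (jacV v w).mulVec := by
  have e : (fun x : Fin 2 → ℂ => (jacV v w) *ᵥ x) = fun x => ∑ j, x j • ![v, w] j := by
    funext x
    ext i
    simp only [mulVec, dotProduct, jacV, Matrix.of_apply, Finset.sum_apply, Pi.smul_apply,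
      smul_eq_mul]
    exact Finset.sum_congr rfl fun j _ => mul_comm _ _
  intro x y hxy
  have h1 : ∑ j, x j • ![v, w] j = ∑ j, y j • ![v, w] j := by
    have h0 : (jacV v w) *ᵥ x = ∑ j, x j • ![v, w] j := congrFun e x
    have h2 : (jacV v w) *ᵥ y = ∑ j, y j • ![v, w] j := congrFun e y
    rw [← h0, ← h2]
    exact hxy
  have h3 : ∑ j, (x j - y j) • ![v, w] j = 0 := by
    simp only [sub_smul, Finset.sum_sub_distrib, h1, sub_self]
  have h4 := Fintype.linearIndependent_iff.mp h _ h3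
  funext j
  have := h4 j
  exact sub_eq_zero.mp this

theorem jac_det_one_add {R' : Matrix κ κ ℂ} (hR : R'.PosSemidef) :
    ∃ ρ : κ → ℝ, (∀ j, 0 ≤ ρ j) ∧ ∀ x : ℝ,
      ((1 : Matrix κ κ ℂ) + (x : ℂ) • R').det = ((∏ j, (1 + ρ j * x) : ℝ) : ℂ) := by
  obtain ⟨U, l, h, h', hU⟩ := Pool.Agent.Lib_helper33.Renyi.exists_diag hR.1
  have hl : ∀ i, 0 ≤ l i := by
    intro i
    have h1 : (Uᴴ * R' * U).PosSemidef := by
      have := hR.conjTranspose_mul_mul_same U
      exact this
    have h2 : Uᴴ * R' * U = diagonal fun i => (l i : ℂ) := by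
      rw [hU]
      calc Uᴴ * (U * diagonal (fun i => (l i : ℂ)) * Uᴴ) * U =
          (Uᴴ * U) * diagonal (fun i => (l i : ℂ)) * (Uᴴ * U) := by simp only [Matrix.mul_assoc]
        _ = _ := by rw [h, Matrix.one_mul, Matrix.mul_one]
    rw [h2] at h1
    have h3 := (Matrix.posSemidef_diagonal_iff.mp h1) i
    exact_mod_cast h3
  refine ⟨l, hl, fun x => ?_⟩
  have e : (1 : Matrix κ κ ℂ) + (x : ℂ) • R' =
      U * diagonal (fun i => ((1 + l i * x : ℝ) : ℂ)) * Uᴴ := by
    have e1 : (diagonal (fun i => ((1 + l i * x : ℝ) : ℂ)) : Matrix κ κ ℂ) =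
        1 + (x : ℂ) • diagonal (fun i => (l i : ℂ)) := by
      ext i j
      by_cases hij : i = j
      · subst hij
        simp
        ring
      · simp [hij, Matrix.one_apply_ne hij]
    rw [e1, Matrix.mul_add, Matrix.add_mul, Matrix.mul_one, h', Matrix.mul_smul,
      Matrix.smul_mul, ← hU]
  rw [e, det_mul, det_mul, mul_right_comm, ← det_mul, h', det_one, one_mul, det_diagonal]
  push_cast
  rfl

theorem jac_star_phi (R : Matrix κ κ ℂ) (hR : R.IsHermitian) (v w : κ → ℂ) (x : ℝ) :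
    star (phi R v w x) = phi R w v x := by
  have hM : ((1 : Matrix κ κ ℂ) + (x : ℂ) • R).IsHermitian := by
    refine Matrix.isHermitian_one.add ?_
    unfold Matrix.IsHermitian
    rw [conjTranspose_smul, hR.eq, Complex.star_def, Complex.conj_ofReal]
  have hI := hM.inv
  unfold phi
  rw [← Matrix.star_dotProduct_star, star_star, star_mulVec, hI.eq, ← dotProduct_mulVec]

theorem jac (R : Matrix κ κ ℂ) (hR : R.PosDef) (v w : κ → ℂ)
    (h : LinearIndependent ℂ ![v, w]) :
    ∃ (c : ℝ) (m : ℕ) (ρ : Fin m → ℝ), 0 < c ∧ (∀ j, 0 ≤ ρ j) ∧ ∀ x : ℝ, 0 ≤ x →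
      (((1 : Matrix κ κ ℂ) + (x : ℂ) • R).det).re * lp R v w x * lp R w v x =
        c * ∏ j, (1 + ρ j * x) := by
  set V := jacV v w with hV
  set G0 : Matrix (Fin 2) (Fin 2) ℂ := Vᴴ * V with hG0
  have hG : G0.PosDef := Matrix.PosDef.conjTranspose_mul_self V (jac_inj v w h)
  have hGd : 0 < G0.det := hG.det_pos
  have hGu : IsUnit G0.det := hGd.ne'.isUnit
  have hGI : G0 * G0⁻¹ = 1 := Matrix.mul_nonsing_inv _ hGu
  have hIG : G0⁻¹ * G0 = 1 := Matrix.nonsing_inv_mul _ hGu
  set P : Matrix κ κ ℂ := V * G0⁻¹ * Vᴴ with hP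
  have hPh : Pᴴ = P := by
    rw [hP, conjTranspose_mul, conjTranspose_mul, conjTranspose_conjTranspose,
      conjTranspose_nonsing_inv, hG.1.eq, Matrix.mul_assoc]
  have hPP : P * P = P := by
    calc P * P = V * (G0⁻¹ * (Vᴴ * V)) * (G0⁻¹ * Vᴴ) := by rw [hP]; simp only [Matrix.mul_assoc]
      _ = P := by rw [← hG0, hIG, Matrix.mul_one, hP, Matrix.mul_assoc]
  set T : Matrix κ κ ℂ := 1 - P with hT
  have hTh : Tᴴ = T := by rw [hT, conjTranspose_sub, conjTranspose_one, hPh]
  have hTT : T * T = T := by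
    rw [hT, Matrix.sub_mul, Matrix.mul_sub, Matrix.mul_sub, Matrix.mul_one, Matrix.one_mul, hPP,
      Matrix.mul_one]
    simp
  have hR' : (T * R * T).PosSemidef := by
    have := hR.posSemidef.conjTranspose_mul_mul_same T
    rwa [hTh] at this
  obtain ⟨ρ, hρ, hdet⟩ := jac_det_one_add hR'
  refine ⟨G0.det.re, Fintype.card κ, fun k => ρ ((Fintype.equivFin κ).symm k), ?_, fun j => hρ _,
    ?_⟩
  · have := (Complex.lt_def.mp hGd).1
    simpa using this
  intro x hx
  set M : Matrix κ κ ℂ := 1 + (x : ℂ) • R with hM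
  have hMp : M.PosDef := by
    refine PosDef.one.add_posSemidef ?_
    refine PosSemidef.smul hR.posSemidef ?_
    exact_mod_cast hx
  have hMu : IsUnit M.det := hMp.det_pos.ne'.isUnit
  have hMI : M * M⁻¹ = 1 := Matrix.mul_nonsing_inv _ hMu
  have key : M.det * (Vᴴ * M⁻¹ * V).det = G0.det * (1 + (x : ℂ) • (T * R * T)).det := by
    have e1 : (1 : Matrix κ κ ℂ) + (x : ℂ) • (T * R * T) = 1 + T * ((x : ℂ) • (R * T)) := by
      rw [Matrix.mul_smul, Matrix.mul_assoc]
    have e2 : M * (1 - (1 - M⁻¹) * P) = 1 + ((x : ℂ) • (R * T)) * T := by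
      have e3 : M * (1 - (1 - M⁻¹) * P) = M - (M - 1) * P := by
        rw [Matrix.mul_sub, Matrix.mul_one, ← Matrix.mul_assoc, Matrix.mul_sub, Matrix.mul_one,
          hMI]
      rw [e3, Matrix.smul_mul, Matrix.mul_assoc, hTT]
      have e4 : M - 1 = (x : ℂ) • R := by rw [hM]; simp
      rw [e4, hM, hT, Matrix.mul_sub, Matrix.mul_one, Matrix.smul_mul, smul_sub]
      abel
    rw [e1, Matrix.det_one_add_mul_comm, ← e2, det_mul]
    have e5 : (1 : Matrix κ κ ℂ) - (1 - M⁻¹) * P = 1 + (-((1 - M⁻¹) * V)) * (G0⁻¹ * Vᴴ) := by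
      rw [hP, Matrix.neg_mul, ← sub_eq_add_neg]
      simp only [Matrix.mul_assoc]
    have e6 : (1 : Matrix (Fin 2) (Fin 2) ℂ) + (G0⁻¹ * Vᴴ) * (-((1 - M⁻¹) * V)) =
        G0⁻¹ * (Vᴴ * M⁻¹ * V) := by
      rw [Matrix.mul_neg, ← sub_eq_add_neg, Matrix.sub_mul, Matrix.one_mul, Matrix.mul_sub,
        Matrix.mul_assoc, ← hG0, hIG]
      simp only [Matrix.mul_assoc]
      simp
    have hdd : G0.det * G0⁻¹.det = 1 := by rw [← det_mul, hGI, det_one]
    rw [e5, Matrix.det_one_add_mul_comm, e6, det_mul]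
    linear_combination (-(M.det * (Vᴴ * M⁻¹ * V).det)) * hdd
  -- the `2 × 2` determinant
  have c0 : (fun i => V i 0) = v := jac_col0 v w
  have c1 : (fun i => V i 1) = w := jac_col1 v w
  have d : (Vᴴ * M⁻¹ * V).det = phi R v v x * phi R w w x - phi R v w x * phi R w v x := by
    rw [Matrix.det_fin_two, hV, jac_entry, jac_entry, jac_entry, jac_entry, jac_col0, jac_col1]
    rfl
  have hs : ∀ a b : κ → ℂ, star (phi R a b x) = phi R b a x := fun a b =>
    jac_star_phi R hR.1 a b x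
  have hvv : phi R v v x = ((phi R v v x).re : ℂ) := by
    have := hs v v
    exact (Complex.conj_eq_iff_re.mp this).symm
  have hww : phi R w w x = ((phi R w w x).re : ℂ) := by
    have := hs w w
    exact (Complex.conj_eq_iff_re.mp this).symm
  have hvw : phi R v w x * phi R w v x = ((‖phi R v w x‖ ^ 2 : ℝ) : ℂ) := by
    rw [← hs v w, Complex.star_def, Complex.mul_conj, Complex.normSq_eq_norm_sq]
  have hn : ‖phi R w v x‖ = ‖phi R v w x‖ := by rw [← hs v w, norm_star]
  -- `M⁻¹` is positive definite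
  have hMip : (M⁻¹).PosDef := hMp.inv
  have pv : 0 ≤ (phi R v v x).re := by
    have := hMip.posSemidef.dotProduct_mulVec_nonneg v
    exact (Complex.le_def.mp this).1
  have pw : 0 ≤ (phi R w w x).re := by
    have := hMip.posSemidef.dotProduct_mulVec_nonneg w
    exact (Complex.le_def.mp this).1
  have hdetG : 0 ≤ (phi R v v x).re * (phi R w w x).re - ‖phi R v w x‖ ^ 2 := by
    have h1 : (Vᴴ * M⁻¹ * V).PosSemidef := hMip.posSemidef.conjTranspose_mul_mul_same V
    have h2 := h1.det_nonneg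
    rw [d, hvw, hvv, hww, ← Complex.ofReal_mul, ← Complex.ofReal_sub] at h2
    exact_mod_cast h2
  have hlp : lp R v w x * lp R w v x =
      (phi R v v x).re * (phi R w w x).re - ‖phi R v w x‖ ^ 2 := by
    unfold lp lam
    rw [hn]
    set p := (phi R v v x).re
    set q := (phi R w w x).re
    set t := ‖phi R v w x‖ ^ 2
    have hD : 0 ≤ (p + q) ^ 2 - 4 * t := by nlinarith [sq_nonneg (p - q)]
    have e : (q + p) ^ 2 - 4 * t = (p + q) ^ 2 - 4 * t := by ring
    rw [e]
    have hsq := Real.sq_sqrt hD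
    linear_combination hsq / 4
  have key2 : ((M.det).re : ℂ) * (((phi R v v x).re * (phi R w w x).re -
      ‖phi R v w x‖ ^ 2 : ℝ) : ℂ) = ((G0.det.re : ℝ) : ℂ) * ((∏ j, (1 + ρ j * x) : ℝ) : ℂ) := by
    have r1 : ((M.det).re : ℂ) = M.det := by
      have := (Complex.lt_def.mp hMp.det_pos).2
      exact Complex.ext (by simp) (by simpa using this)
    have r2 : ((G0.det.re : ℝ) : ℂ) = G0.det := by
      have := (Complex.lt_def.mp hGd).2
      exact Complex.ext (by simp) (by simpa using this)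
    rw [r1, r2, ← hdet x, ← key, d, hvw, hvv, hww]
    push_cast
    simp
  have key3 : (M.det).re * ((phi R v v x).re * (phi R w w x).re - ‖phi R v w x‖ ^ 2) =
      G0.det.re * ∏ j, (1 + ρ j * x) := by exact_mod_cast key2
  rw [mul_assoc, hlp, key3]
  congr 1
  exact (Equiv.prod_comp (Fintype.equivFin κ).symm fun j => 1 + ρ j * x).symm

end Pool.Agent.LDK
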